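import Pool.Agent.H.MP_b91a69_an.B

namespace Pool.Agent.Results.MP_b91a69_an.Char

open Filter Topology Finset Pool.Agent.H.MP_b91a69_an
open scoped ENNReal

/-- a `Λ`-sequence (indexed from `0`). -/
def IsSeq (l : ℕ → ℝ) : Prop :=
  Monotone l ∧ (∀ i, 0 < l i) ∧ Tendsto (fun n => ∑ i ∈ range n, 1 / l i) atTop atTop

/-- the Waterman variation of `f` on `[a,b]`. -/
noncomputable def V (a b : ℝ) (l : ℕ → ℝ) (f : ℝ → ℝ) : ℝ≥0∞ :=
  ⨆ (n : ℕ) (s : Fin n → ℝ) (t : Fin n → ℝ)
    (_ : (∀ i, a ≤ s i ∧ s i ≤ t i ∧ t i ≤ b) ∧ ∀ i j, i ≠ j → t i ≤ s j ∨ t j ≤ s i),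
    ENNReal.ofReal (∑ i, |f (t i) - f (s i)| / l i)

def BV (a b : ℝ) (l : ℕ → ℝ) : Set (ℝ → ℝ) := {f | V a b l f < ⊤}

def BVc (a b : ℝ) (l : ℕ → ℝ) : Set (ℝ → ℝ) :=
  {f | V a b l f < ⊤ ∧ Tendsto (fun m => V a b (fun i => l (i + m)) f) atTop (𝓝 0)}

variable {a b : ℝ} {l : ℕ → ℝ} {f : ℝ → ℝ}

lemma le_V (hab : a ≤ b) {S : Finset ℕ} {s t : ℕ → ℝ} (h : Fam S a b s t) :
    ENNReal.ofReal (sm f (fun i => 1 / l i) S s t) ≤ V a b l f := by
  have hS : S ⊆ range (S.sup id + 1) := fun i hi =>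
    mem_range.2 (Nat.lt_succ_of_le (le_sup (f := id) hi))
  refine le_iSup_of_le (S.sup id + 1) (le_iSup_of_le (fun i => if i.val ∈ S then s i else a)
    (le_iSup_of_le (fun i => if i.val ∈ S then t i else a) (le_iSup_of_le ⟨fun i => ?_,
      fun i j hij => ?_⟩ (le_of_eq (congrArg _ ?_)))))
  · simp only
    split_ifs with hi
    · exact h.1 _ hi
    · exact ⟨le_rfl, le_rfl, hab⟩
  · simp only
    split_ifs with h1 h2 h2
    · exact h.2 _ h1 _ h2 fun e => hij (Fin.ext e)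
    · exact Or.inr (h.1 _ h1).1
    · exact Or.inl (h.1 _ h2).1
    · exact Or.inl le_rfl
  · rw [← sum_range fun i => |f (if i ∈ S then t i else a) - f (if i ∈ S then s i else a)| / l i,
      ← sum_subset hS fun i _ hi => by simp [hi]]
    exact sum_congr rfl fun i hi => by simp [hi, div_eq_mul_inv]

lemma V_le {C : ℝ} (h : ∀ n s t, Fam (range n) a b s t →
    sm f (fun i => 1 / l i) (range n) s t ≤ C) : V a b l f ≤ ENNReal.ofReal C := by
  refine iSup_le fun n => iSup_le fun s => iSup_le fun t => iSup_le fun hs =>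
    ENNReal.ofReal_le_ofReal (le_of_eq_of_le ?_ (h n (fun i => if h : i < n then s ⟨i, h⟩ else a)
      (fun i => if h : i < n then t ⟨i, h⟩ else a) ⟨fun i hi => ?_, fun i hi j hj hij => ?_⟩))
  · simp [sm, sum_range, div_eq_mul_inv]
  · simpa [mem_range.1 hi] using hs.1 _
  · simpa [mem_range.1 hi, mem_range.1 hj] using hs.2 ⟨i, mem_range.1 hi⟩ ⟨j, mem_range.1 hj⟩
      (by simpa using hij)

lemma lim_or (h : Monotone l) (h0 : ∀ i, 0 < l i) :
    Tendsto (fun i => 1 / l i) atTop (𝓝 0) ∨ ∃ c > 0, ∀ i, c ≤ 1 / l i := by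
  rcases tendsto_atTop_of_monotone h with h1 | ⟨c, h1⟩
  · exact Or.inl (tendsto_const_nhds.div_atTop h1)
  · have h2 := fun i => h.ge_of_tendsto h1 i
    exact Or.inr ⟨1 / c, one_div_pos.2 ((h0 0).trans_le (h2 0)), fun i =>
      one_div_le_one_div_of_le (h0 i) (h2 i)⟩

theorem result (a b : ℝ) (hab : a < b) (γ l : ℕ → ℝ) (hγ : IsSeq γ) (hl : IsSeq l) :
    BV a b γ ⊆ BVc a b l ↔ ∀ ε > 0, ∃ K : ℕ, 1 ≤ K ∧ ∀ᶠ n in atTop,
      ∑ i ∈ range (K * n), 1 / l i ≤ ε * K * ∑ i ∈ range n, 1 / γ i := by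
  have an : ∀ {l : ℕ → ℝ}, IsSeq l → Antitone fun i => 1 / l i := fun h i j hij =>
    one_div_le_one_div_of_le (h.2.1 i) (h.1 hij)
  have po : ∀ {l : ℕ → ℝ}, IsSeq l → ∀ i, 0 < 1 / l i := fun h i => one_div_pos.2 (h.2.1 i)
  have no : ∀ (f : ℝ → ℝ) (c : ℝ), 0 < c → f ∈ BVc a b l → (∀ m, ∃ n s t, Fam (range n) a b s t ∧
      c ≤ sm f (fun i => 1 / l (i + m)) (range n) s t) → False := fun f c hc hf h => by
    have := ge_of_tendsto' hf.2 fun m => by
      obtain ⟨n, s, t, h1, h2⟩ := h m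
      exact (ENNReal.ofReal_le_ofReal h2).trans (le_V hab.le h1)
    simp at this; linarith
  constructor
  · intro H
    have l0 : Tendsto (fun i => 1 / l i) atTop (𝓝 0) := by
      refine (lim_or hl.1 hl.2.1).resolve_right fun ⟨c, hc, h⟩ => no id ((b - a) * c)
        (mul_pos (sub_pos.2 hab) hc) (H ((V_le (C := (b - a) * (1 / γ 0)) fun n s t h => ?_).trans_lt
          ENNReal.ofReal_lt_top)) fun m => ⟨1, fun _ => a, fun _ => b, ⟨by simp [hab.le], by simp⟩, ?_⟩
      · refine le_trans ?_ (mul_le_mul_of_nonneg_right (len_sum _ s t hab.le h) (po hγ 0).le)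
        rw [sum_mul]
        refine sum_le_sum fun i hi => ?_
        have := sub_nonneg.2 (h.1 i hi).2.1
        rw [id, id, abs_of_nonneg this]
        exact mul_le_mul_of_nonneg_left (an hγ (Nat.zero_le i)) this
      · simp only [sm, range_one, sum_singleton, id, abs_of_pos (sub_pos.2 hab)]
        exact mul_le_mul_of_nonneg_left (h _) (sub_pos.2 hab).le
    intro ε hε
    rcases lim_or hγ.1 hγ.2.1 with g0 | ⟨c, hc, h⟩
    · by_contra hcon
      obtain ⟨f, h1, h2⟩ := nec hab (an hγ) (po hγ) hγ.2.2 g0 (po hl) hε fun K hK => by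
        by_contra h
        exact hcon ⟨K, hK, by simpa using h⟩
      exact no f (ε / 4) (by positivity) (H ((V_le fun n s t h => h1 _ s t h).trans_lt
        ENNReal.ofReal_lt_top)) h2
    · refine ⟨1, le_rfl, ?_⟩
      filter_upwards [l0.cesaro.eventually (gt_mem_nhds (mul_pos hε hc)), eventually_gt_atTop 0]
        with n h1 hn
      rw [inv_mul_lt_iff₀ (by exact_mod_cast hn)] at h1
      have h2 : n * c ≤ ∑ i ∈ range n, 1 / γ i := by
        simpa using card_nsmul_le_sum (range n) (fun i => 1 / γ i) c fun i _ => h i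
      rw [one_mul, Nat.cast_one, mul_one]
      nlinarith
  · intro H f hf
    have l0 : Tendsto (fun i => 1 / l i) atTop (𝓝 0) := by
      refine (lim_or hl.1 hl.2.1).resolve_right fun ⟨c, hc, h⟩ => ?_
      obtain ⟨K, hK, h1⟩ := H (c * γ 0 / 2) (by have := hγ.2.1 0; positivity)
      obtain ⟨n, h1, hn⟩ := (h1.and (eventually_gt_atTop 0)).exists
      have h2 : (K * n : ℕ) * c ≤ ∑ i ∈ range (K * n), 1 / l i := by
        simpa using card_nsmul_le_sum (range (K * n)) (fun i => 1 / l i) c fun i _ => h i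
      have h3 : ∑ i ∈ range n, 1 / γ i ≤ n * (1 / γ 0) := by
        simpa using sum_le_card_nsmul (range n) (fun i => 1 / γ i) _ fun i _ => an hγ (Nat.zero_le i)
      have h4 := hγ.2.1 0
      have h5 := (h2.trans h1).trans (mul_le_mul_of_nonneg_left h3 (by positivity))
      have h6 : c * γ 0 / 2 * K * (n * (1 / γ 0)) = K * n * c / 2 := by field_simp
      have h7 : (0 : ℝ) < K * n * c := by positivity
      push_cast at h5
      linarith
    let c : Ctx := ⟨f, fun i => 1 / γ i, a, b, (V a b γ f).toReal, po hγ, fun S s t h =>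
      (ENNReal.ofReal_le_iff_le_toReal hf.ne).1 (le_V hab.le h)⟩
    have S := fun δ hδ => suff c hab.le hγ.2.2 (an hl) l0 H (δ := δ) hδ
    refine ⟨?_, ENNReal.tendsto_nhds_zero.2 fun δ hδ => ?_⟩
    · obtain ⟨m, hm⟩ := (S 1 one_pos).exists
      refine (V_le (C := ∑ i ∈ range m, c.C * γ 0 * (1 / l i) + 1) fun n s t h => ?_).trans_lt
        ENNReal.ofReal_lt_top
      have h1 := hm (n - m) _ _ (h.comp (· + m) (fun i hi => by simp at hi ⊢; omega)
        fun i _ j _ e => by omega)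
      have h2 : ∀ i ∈ range n, |f (t i) - f (s i)| ≤ c.C * γ 0 := fun i hi => by
        have := c.hC {0} _ _ (h.comp (T := {0}) (fun _ => i) (by simpa using hi) (by simp))
        rw [← div_le_iff₀ (hγ.2.1 0)]; simpa [sm, c, div_eq_mul_inv] using this
      have h3 : 0 ≤ c.C * γ 0 := mul_nonneg ENNReal.toReal_nonneg (hγ.2.1 0).le
      unfold sm
      rw [← sum_filter_add_sum_filter_not _ (· < m)]
      refine add_le_add ((sum_le_sum fun i hi => mul_le_mul_of_nonneg_right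
        (h2 i (mem_filter.1 hi).1) (po hl i).le).trans (sum_le_sum_of_subset_of_nonneg
          (fun i hi => mem_range.2 (mem_filter.1 hi).2) fun i _ _ => mul_nonneg h3 (po hl i).le))
        (le_of_eq_of_le ?_ h1)
      rw [show (range n).filter (fun i => ¬i < m) = Ico m n by ext i; simp; omega,
        sum_Ico_eq_sum_range]
      simp only [sm, add_comm m, Function.comp, c]
    · by_cases h : δ = ⊤
      · simp [h]
      filter_upwards [S δ.toReal (ENNReal.toReal_pos hδ.ne' h)] with m hm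
      exact (V_le hm).trans_eq (ENNReal.ofReal_toReal h)

end Pool.Agent.Results.MP_b91a69_an.Char
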